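import Pool.Agent.X86.SG.Omega

/-! sign sets of self-similar series -/

set_option autoImplicit false

open Set Filter Topology MeasureTheory
open scoped ENNReal NNReal

namespace Pool.Agent.X86.SG

/-- The `(i+1)`-st vector `a_{i+1} = ((i+1)^{-α_1}, …, (i+1)^{-α_d})`. -/
noncomputable def a {d : ℕ} (α : Fin d → ℝ) (i : ℕ) : Fin d → ℝ := fun c => ((i:ℝ) + 1) ^ (-α c)

/-- `E(L)`: the set of sign sequences with `∑ ε_n a_n = L`. -/
def E {d : ℕ} (α : Fin d → ℝ) (L : Fin d → ℝ) : Set Omega :=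
  {ε | Tendsto (fun N => ∑ i ∈ Finset.range N, ((ε i : ℤ) : ℝ) • a α i) atTop (𝓝 L)}

/-- `S(a_n)`: the set of sums of convergent signed series. -/
def S {d : ℕ} (α : Fin d → ℝ) : Set (Fin d → ℝ) := {L | (E α L).Nonempty}

/-! ### blocks -/

lemma sum_blocks (u : ℕ → ℝ) (K : ℕ) (J : ℕ) :
    ∑ i ∈ Finset.range (J * K), u i = ∑ j ∈ Finset.range J, ∑ r ∈ Finset.range K, u (j * K + r) := by
  induction J with
  | zero => simp
  | succ J ih => rw [Nat.succ_mul, Finset.sum_range_add, ih, Finset.sum_range_succ]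

/-- convergence along blocks implies convergence -/
lemma tendsto_of_blocks {u : ℕ → ℝ} {K : ℕ} (hK : 0 < K) (hu : Tendsto u atTop (𝓝 0)) {l : ℝ}
    (h : Tendsto (fun J => ∑ j ∈ Finset.range J, ∑ r ∈ Finset.range K, u (j * K + r)) atTop (𝓝 l)) :
    Tendsto (fun N => ∑ i ∈ Finset.range N, u i) atTop (𝓝 l) := by
  have hdiv : Tendsto (fun N : ℕ => N / K) atTop atTop := Nat.tendsto_div_const_atTop hK.ne'
  have h1 := h.comp hdiv
  have h2 : Tendsto (fun N : ℕ => ∑ r ∈ Finset.range (N % K), u (N / K * K + r)) atTop (𝓝 0) := by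
    have h3 : Tendsto (fun N : ℕ => ∑ r ∈ Finset.range K, |u (N / K * K + r)|) atTop (𝓝 0) := by
      have : (0:ℝ) = ∑ r ∈ Finset.range K, 0 := by simp
      rw [this]
      apply tendsto_finsetSum
      intro r _
      have h4 : Tendsto (fun N : ℕ => N / K * K + r) atTop atTop := by
        apply tendsto_atTop_mono (f := fun N => N / K) _ hdiv
        intro N
        have := Nat.le_mul_of_pos_right (N / K) hK
        omega
      have := (hu.comp h4).abs
      rw [abs_zero] at this
      exact this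
    refine squeeze_zero_norm (fun N => ?_) h3
    rw [Real.norm_eq_abs]
    refine (Finset.abs_sum_le_sum_abs _ _).trans ?_
    apply Finset.sum_le_sum_of_subset_of_nonneg
    · intro r hr
      rw [Finset.mem_range] at hr ⊢
      exact hr.trans (Nat.mod_lt _ hK)
    · intro _ _ _; exact abs_nonneg _
  have h5 := h1.add h2
  rw [add_zero] at h5
  refine h5.congr (fun N => ?_)
  simp only [Function.comp]
  rw [← sum_blocks, ← Finset.sum_range_add, Nat.div_add_mod']

/-! ### patterns -/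

/-- digits from subsets -/
noncomputable def C (k : ℕ) : ℕ := Nat.choose (2 * k) k

lemma card_pat (k : ℕ) : (Finset.powersetCard k (Finset.univ : Finset (Fin (2 * k)))).card = C k := by
  rw [Finset.card_powersetCard, Finset.card_univ, Fintype.card_fin]; rfl

/-- enumeration of the balanced patterns -/
noncomputable def pat (k : ℕ) :
    (Finset.powersetCard k (Finset.univ : Finset (Fin (2 * k)))) ≃ Fin (C k) :=
  Finset.equivFinOfCardEq (card_pat k)

lemma C_pos (k : ℕ) : 0 < C k := Nat.choose_pos (by omega)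

open Classical in
/-- digit of a subset -/
noncomputable def dig (k : ℕ) (T : Finset (Fin (2 * k))) : Fin (C k) :=
  if h : T ∈ Finset.powersetCard k (Finset.univ : Finset (Fin (2 * k))) then pat k ⟨T, h⟩
  else ⟨0, C_pos k⟩

/-- the block set of a sign sequence -/
def blk (k : ℕ) (ε : Omega) (j : ℕ) : Finset (Fin (2 * k)) :=
  Finset.univ.filter fun r => ε (j * (2 * k + 1) + r) = 1

/-- reading the digits -/
noncomputable def G (k : ℕ) (ε : Omega) : ℝ := Real.ofDigits (fun j => dig k (blk k ε j))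

/-- the Hölder exponent -/
noncomputable def sx (k : ℕ) : ℝ := Real.logb 2 (C k) / (2 * k + 1)

lemma G_holder (k : ℕ) (hC : 1 < C k) (x y : Omega) : |G k x - G k y| ≤ C k * dist x y ^ sx k := by
  have hC0 : (0:ℝ) < C k := by exact_mod_cast C_pos k
  have hC1 : (1:ℝ) < C k := by exact_mod_cast hC
  rcases eq_or_ne x y with rfl | hne
  · rw [sub_self, abs_zero]; positivity
  set K := 2 * k + 1 with hK
  have hK0 : 0 < K := by omega
  set f := fd x y with hf
  have h1 : |G k x - G k y| ≤ ((C k : ℝ) ^ (f / K))⁻¹ := by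
    apply Real.abs_ofDigits_sub_ofDigits_le
    intro j hj
    have : blk k x j = blk k y j := by
      unfold blk
      apply Finset.filter_congr
      intro r _
      rw [eq_of_lt_fd (x := x) (y := y)]
      have h2 : (j + 1) * K ≤ f / K * K := Nat.mul_le_mul_right _ hj
      have h3 : f / K * K ≤ f := Nat.div_mul_le_self _ _
      have h4 : (r:ℕ) < 2 * k := r.2
      have h5 : (j + 1) * K = j * K + K := by ring
      have h6 : j * (2 * k + 1) = j * K := rfl
      omega
    simp only [this]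
  refine h1.trans ?_
  rw [dist_eq hne, ← hf]
  have h2 : ((f:ℝ) + 1) / K - 1 ≤ (f / K : ℕ) := by
    have h3 : f < (f / K + 1) * K := by
      rw [Nat.add_mul, one_mul]
      have := Nat.div_add_mod' f K
      have := Nat.mod_lt f hK0
      omega
    have h4 : f + 1 ≤ (f / K + 1) * K := h3
    have h5 : ((f:ℝ) + 1) ≤ ((f / K : ℕ) + 1) * K := by exact_mod_cast h4
    rw [sub_le_iff_le_add, div_le_iff₀ (by exact_mod_cast hK0)]
    exact h5
  have h6 : ((1 / 2 : ℝ) ^ (f + 1)) ^ sx k = (C k : ℝ) ^ (-(((f:ℝ) + 1) / K)) := by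
    have e1 : (C k : ℝ) = 2 ^ (Real.logb 2 (C k)) := (Real.rpow_logb (by norm_num) (by norm_num) hC0).symm
    conv_rhs => rw [e1]
    rw [one_div, inv_pow, ← Real.rpow_natCast, ← Real.rpow_neg (by norm_num),
      ← Real.rpow_mul (by norm_num), ← Real.rpow_mul (by norm_num)]
    congr 1
    unfold sx
    rw [hK]; push_cast
    field_simp
  rw [h6]
  calc ((C k : ℝ) ^ (f / K))⁻¹ = (C k : ℝ) ^ (-((f / K : ℕ) : ℝ)) := by
        rw [Real.rpow_neg hC0.le, Real.rpow_natCast]
    _ ≤ (C k : ℝ) ^ (1 + -(((f:ℝ) + 1) / K)) := by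
        apply Real.rpow_le_rpow_of_exponent_le hC1.le
        linarith
    _ = _ := by rw [Real.rpow_add hC0, Real.rpow_one]

/-! ### construction -/

section
variable {d : ℕ} {α : Fin d → ℝ} (hα : ∀ c, 0 < α c) {k : ℕ} (T : ℕ → Finset (Fin (2 * k)))
  (hT : ∀ j, (T j).card = k)

/-- signs prescribed by the sets `T j` -/
noncomputable def sgn (j : ℕ) (r : Fin (2 * k)) : ℤˣ := if r ∈ T j then 1 else -1

/-- the combined sign sequence -/
noncomputable def eps (δ : Omega) : Omega := fun i =>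
  if h : i % (2 * k + 1) < 2 * k then sgn T (i / (2 * k + 1)) ⟨i % (2 * k + 1), h⟩
  else δ (i / (2 * k + 1))

lemma eps_left (δ : Omega) (j : ℕ) (r : Fin (2 * k)) :
    eps T δ (j * (2 * k + 1) + r) = sgn T j r := by
  have hr := r.2
  have h1 : (j * (2 * k + 1) + r) % (2 * k + 1) = r := by
    rw [Nat.mul_add_mod', Nat.mod_eq_of_lt (by omega)]
  have h2 : (j * (2 * k + 1) + r) / (2 * k + 1) = j := by
    rw [mul_comm, Nat.mul_add_div (by omega), Nat.div_eq_of_lt (by omega), add_zero]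
  unfold eps
  rw [dif_pos (by rw [h1]; exact hr)]
  congr 1
  exact Fin.ext h1

lemma eps_right (δ : Omega) (j : ℕ) : eps T δ (j * (2 * k + 1) + 2 * k) = δ j := by
  have h1 : (j * (2 * k + 1) + 2 * k) % (2 * k + 1) = 2 * k := by
    rw [Nat.mul_add_mod', Nat.mod_eq_of_lt (by omega)]
  have h2 : (j * (2 * k + 1) + 2 * k) / (2 * k + 1) = j := by
    rw [mul_comm, Nat.mul_add_div (by omega), Nat.div_eq_of_lt (by omega), add_zero]
  unfold eps
  rw [dif_neg (by rw [h1]; omega), h2]

lemma blk_eps (δ : Omega) (j : ℕ) : blk k (eps T δ) j = T j := by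
  ext r
  simp only [blk, Finset.mem_filter, Finset.mem_univ, true_and]
  rw [eps_left]
  unfold sgn
  by_cases h : r ∈ T j
  · simp [h]
  · simp [h]

include hT in
lemma sgn_sum (j : ℕ) : ∑ r : Fin (2 * k), ((sgn T j r : ℤ) : ℝ) = 0 := by
  have h1 : ∀ r : Fin (2 * k), ((sgn T j r : ℤ) : ℝ) = 2 * (if r ∈ T j then 1 else 0) - 1 := by
    intro r
    unfold sgn
    by_cases h : r ∈ T j
    · simp [h]; norm_num
    · simp [h]
  simp_rw [h1]
  rw [Finset.sum_sub_distrib, ← Finset.mul_sum]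
  simp [hT j]

/-- weights -/
noncomputable def w (β : ℝ) (i : ℕ) : ℝ := ((i:ℝ) + 1) ^ (-β)

lemma w_anti {β : ℝ} (hβ : 0 < β) {i j : ℕ} (h : i ≤ j) : w β j ≤ w β i := by
  unfold w
  apply Real.rpow_le_rpow_of_nonpos (by positivity)
  · have : (i:ℝ) ≤ j := by exact_mod_cast h
    linarith
  · linarith

lemma w_nonneg (β : ℝ) (i : ℕ) : 0 ≤ w β i := by unfold w; positivity

lemma w_tendsto {β : ℝ} (hβ : 0 < β) : Tendsto (w β) atTop (𝓝 0) := by
  unfold w
  have h1 : Tendsto (fun i : ℕ => (i:ℝ) + 1) atTop atTop :=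
    tendsto_atTop_add_const_right _ _ tendsto_natCast_atTop_atTop
  exact (tendsto_rpow_neg_atTop hβ).comp h1

/-- block sums -/
noncomputable def Bl (β : ℝ) (j : ℕ) : ℝ :=
  ∑ r : Fin (2 * k), ((sgn T j r : ℤ) : ℝ) * w β (j * (2 * k + 1) + r)

include hT in
lemma Bl_bound {β : ℝ} (hβ : 0 < β) (j : ℕ) : |Bl T β j| ≤
    (2 * k) * (w β (j * (2 * k + 1)) - w β ((j + 1) * (2 * k + 1))) := by
  have h1 : Bl T β j = ∑ r : Fin (2 * k), ((sgn T j r : ℤ) : ℝ) *
      (w β (j * (2 * k + 1) + r) - w β (j * (2 * k + 1))) := by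
    simp_rw [mul_sub]
    rw [Finset.sum_sub_distrib, ← Finset.sum_mul, sgn_sum T hT, zero_mul, sub_zero]
    rfl
  rw [h1]
  calc _ ≤ ∑ r : Fin (2 * k), |((sgn T j r : ℤ) : ℝ) *
      (w β (j * (2 * k + 1) + r) - w β (j * (2 * k + 1)))| := Finset.abs_sum_le_sum_abs _ _
    _ ≤ ∑ r : Fin (2 * k), (w β (j * (2 * k + 1)) - w β ((j + 1) * (2 * k + 1))) := by
        apply Finset.sum_le_sum
        intro r _
        rw [abs_mul]
        have e1 : |((sgn T j r : ℤ) : ℝ)| = 1 := by
          unfold sgn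
          by_cases h : r ∈ T j
          · simp [h]
          · simp [h]
        rw [e1, one_mul, abs_sub_comm, abs_of_nonneg (by
          linarith [w_anti hβ (show j * (2 * k + 1) ≤ j * (2 * k + 1) + r by omega)])]
        have hr := r.2
        have := w_anti hβ (show j * (2 * k + 1) + r ≤ (j + 1) * (2 * k + 1) by
          rw [Nat.add_mul]; omega)
        linarith
    _ = _ := by rw [Finset.sum_const, Finset.card_univ, Fintype.card_fin, nsmul_eq_mul]; push_cast; ring

include hT in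
lemma Bl_summable {β : ℝ} (hβ : 0 < β) : Summable (Bl T β) := by
  apply Summable.of_norm_bounded
    (g := fun j => (2 * (k:ℝ)) * (w β (j * (2 * k + 1)) - w β ((j + 1) * (2 * k + 1))))
  · apply Summable.mul_left
    apply summable_of_sum_range_le (c := w β 0)
    · intro j
      linarith [w_anti hβ (show j * (2 * k + 1) ≤ (j + 1) * (2 * k + 1) by
        apply Nat.mul_le_mul_right; omega)]
    · intro n
      have := Finset.sum_range_sub' (fun j => w β (j * (2 * k + 1))) n
      rw [this, zero_mul]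
      linarith [w_nonneg β (n * (2 * k + 1))]
  · intro j
    exact Bl_bound T hT hβ j

include hα hT in
theorem exists_eps (hS : S α = univ) (L : Fin d → ℝ) : ∃ ε ∈ E α L, ∀ j, blk k ε j = T j := by
  set K := 2 * k + 1 with hK
  have hK0 : (0:ℝ) < K := by positivity
  set s : Fin d → ℝ := fun c => ∑' j, Bl T (α c) j with hs
  obtain ⟨δ, hδ⟩ : (E α (fun c => (K:ℝ) ^ (α c) * (L c - s c))).Nonempty := by
    have : (fun c => (K:ℝ) ^ (α c) * (L c - s c)) ∈ S α := by rw [hS]; trivial
    exact this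
  refine ⟨eps T δ, ?_, fun j => blk_eps T δ j⟩
  change Tendsto _ _ _
  rw [tendsto_pi_nhds]
  intro c
  have hδc : Tendsto (fun N => ∑ i ∈ Finset.range N, ((δ i : ℤ) : ℝ) * w (α c) i) atTop
      (𝓝 ((K:ℝ) ^ (α c) * (L c - s c))) := by
    have h1 := (tendsto_pi_nhds.mp (show Tendsto _ _ _ from hδ)) c
    refine h1.congr fun N => ?_
    rw [Finset.sum_apply]
    rfl
  have e0 : (fun N => (∑ i ∈ Finset.range N, ((eps T δ i : ℤ) : ℝ) • a α i) c) =
      fun N => ∑ i ∈ Finset.range N, ((eps T δ i : ℤ) : ℝ) * w (α c) i := by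
    funext N
    rw [Finset.sum_apply]
    rfl
  rw [e0]
  apply tendsto_of_blocks (K := K) (by omega)
  · refine squeeze_zero_norm (fun i => ?_) (w_tendsto (hα c))
    rw [norm_mul]
    have : ‖((eps T δ i : ℤ) : ℝ)‖ = 1 := by
      rcases Int.units_eq_one_or (eps T δ i) with h | h <;> rw [h] <;> simp
    rw [this, one_mul, Real.norm_of_nonneg (w_nonneg _ _)]
  · have hb : ∀ j, ∑ r ∈ Finset.range K, ((eps T δ (j * K + r) : ℤ) : ℝ) * w (α c) (j * K + r) =
        Bl T (α c) j + (K:ℝ) ^ (-α c) * (((δ j : ℤ) : ℝ) * w (α c) j) := by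
      intro j
      rw [hK, Finset.sum_range_succ, eps_right]
      congr 1
      · rw [Finset.sum_range]
        unfold Bl
        apply Finset.sum_congr rfl
        intro r _
        rw [eps_left]
      · have : w (α c) (j * (2 * k + 1) + 2 * k) = (K:ℝ) ^ (-α c) * w (α c) j := by
          unfold w
          rw [← Real.mul_rpow (by positivity) (by positivity)]
          congr 1
          rw [hK]; push_cast; ring
        rw [this]; ring
    simp_rw [hb, Finset.sum_add_distrib, ← Finset.mul_sum]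
    have h1 := (Bl_summable T hT (hα c)).hasSum.tendsto_sum_nat
    have h2 := hδc.const_mul ((K:ℝ) ^ (-α c))
    have h3 := h1.add h2
    have e1 : (∑' j, Bl T (α c) j) + (K:ℝ) ^ (-α c) * ((K:ℝ) ^ (α c) * (L c - s c)) = L c := by
      rw [← mul_assoc, ← Real.rpow_add hK0, neg_add_cancel, Real.rpow_zero, one_mul]
      simp only [hs]; ring
    rw [e1] at h3
    exact h3

end

theorem dim_lower {d : ℕ} {α : Fin d → ℝ} (hα : ∀ c, 0 < α c) (hS : S α = univ) (L : Fin d → ℝ)
    {k : ℕ} (hC : 1 < C k) : ENNReal.ofReal (sx k) ≤ dimH (E α L) := by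
  have hC1 : (1:ℝ) < C k := by exact_mod_cast hC
  have hs0 : 0 < sx k := div_pos (Real.logb_pos (by norm_num) hC1) (by positivity)
  set r : ℝ≥0 := ⟨sx k, hs0.le⟩ with hr
  have hr0 : 0 < r := by rw [← NNReal.coe_pos]; exact hs0
  have hholder : HolderOnWith (C k : ℝ≥0) r (G k) (E α L) := by
    intro x _ y _
    have h := G_holder k hC x y
    rw [edist_dist, edist_dist, ENNReal.ofReal_rpow_of_nonneg dist_nonneg (NNReal.coe_nonneg _),
      ← ENNReal.ofReal_coe_nnreal, ← ENNReal.ofReal_mul (NNReal.coe_nonneg _)]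
    apply ENNReal.ofReal_le_ofReal
    rw [Real.dist_eq]
    have e1 : (r : ℝ) = sx k := rfl
    rw [e1]
    simpa using h
  have himg : Ico (0:ℝ) 1 ⊆ G k '' E α L := by
    intro x hx
    have : NeZero (C k) := ⟨(C_pos k).ne'⟩
    set T : ℕ → Finset (Fin (2 * k)) := fun j => ((pat k).symm (Real.digits x (C k) j)).1 with hTdef
    have hTm : ∀ j, T j ∈ Finset.powersetCard k (Finset.univ : Finset (Fin (2 * k))) :=
      fun j => ((pat k).symm (Real.digits x (C k) j)).2
    have hT : ∀ j, (T j).card = k := fun j => (Finset.mem_powersetCard.mp (hTm j)).2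
    obtain ⟨ε, hε, hb⟩ := exists_eps hα T hT hS L
    refine ⟨ε, hε, ?_⟩
    unfold G
    have : (fun j => dig k (blk k ε j)) = Real.digits x (C k) := by
      funext j
      rw [hb j]
      unfold dig
      rw [dif_pos (hTm j)]
      simp [hTdef]
    rw [this]
    exact Real.ofDigits_digits hC hx
  have h1 : (1 : ℝ≥0∞) ≤ dimH (G k '' E α L) := by
    have h2 : dimH (Set.Ico (0:ℝ) 1) = 1 := by
      have := Real.dimH_of_nonempty_interior (s := Set.Ico (0:ℝ) 1) (by simp)
      simpa using this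
    rw [← h2]
    exact dimH_mono himg
  have h3 := hholder.dimH_image_le hr0
  have h4 : (1 : ℝ≥0∞) ≤ dimH (E α L) / r := h1.trans h3
  have hr' : (r : ℝ≥0∞) ≠ 0 := by simpa using hr0.ne'
  rw [ENNReal.le_div_iff_mul_le (Or.inl hr') (Or.inl ENNReal.coe_ne_top), one_mul] at h4
  calc ENNReal.ofReal (sx k) = (r : ℝ≥0∞) := by rw [← ENNReal.ofReal_coe_nnreal]; rfl
    _ ≤ _ := h4

lemma sx_lower {k : ℕ} (hk : 0 < k) : (2 * k - Real.logb 2 (2 * k)) / (2 * k + 1) ≤ sx k := by
  unfold sx
  gcongr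
  have h1 := Nat.four_pow_le_two_mul_self_mul_centralBinom k hk
  have h2 : (4:ℝ) ^ k ≤ 2 * k * C k := by
    have : ((4 ^ k : ℕ) : ℝ) ≤ ((2 * k * Nat.centralBinom k : ℕ) : ℝ) := by exact_mod_cast h1
    rw [Nat.centralBinom] at this
    push_cast at this
    exact this
  have hk' : (0:ℝ) < 2 * k := by positivity
  have hC : (0:ℝ) < C k := by exact_mod_cast C_pos k
  have h3 : Real.logb 2 ((4:ℝ) ^ k) ≤ Real.logb 2 (2 * k * C k) :=
    Real.logb_le_logb_of_le (by norm_num) (by positivity) h2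
  rw [Real.logb_mul hk'.ne' hC.ne'] at h3
  have h4 : Real.logb 2 ((4:ℝ) ^ k) = 2 * k := by
    rw [show (4:ℝ) = 2 ^ 2 by norm_num, ← pow_mul, Real.logb_pow]
    simp
  linarith

lemma lim_lower : Tendsto (fun k : ℕ => (2 * (k:ℝ) - Real.logb 2 (2 * k)) / (2 * k + 1)) atTop (𝓝 1) := by
  have h0 : Tendsto (fun k : ℕ => 2 * (k:ℝ)) atTop atTop :=
    tendsto_natCast_atTop_atTop.const_mul_atTop (by norm_num)
  have h1 : Tendsto (fun x : ℝ => Real.log x / (1 * x + 0)) atTop (𝓝 0) :=
    Real.tendsto_pow_log_div_mul_add_atTop 1 0 1 one_ne_zero |>.congr (by intro x; simp)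
  have h2 : Tendsto (fun k : ℕ => Real.log (2 * k) / (2 * k) ) atTop (𝓝 0) := by
    have := h1.comp h0
    refine this.congr fun k => ?_
    simp
  have h3 : Tendsto (fun k : ℕ => (1:ℝ) / (2 * k)) atTop (𝓝 0) := by
    have := tendsto_inv_atTop_zero.comp h0
    refine this.congr fun k => ?_
    simp [Function.comp]
  have h4 : Tendsto (fun k : ℕ => (1 - Real.log (2 * k) / (2 * k) / Real.log 2) / (1 + (1:ℝ) / (2 * k)))
      atTop (𝓝 ((1 - 0 / Real.log 2) / (1 + 0))) :=
    (tendsto_const_nhds.sub (h2.div_const _)).div (tendsto_const_nhds.add h3) (by norm_num)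
  rw [zero_div, sub_zero, add_zero, div_one] at h4
  refine h4.congr' ?_
  filter_upwards [eventually_gt_atTop 0] with k hk
  have hk' : (0:ℝ) < k := by exact_mod_cast hk
  have hl : Real.log 2 ≠ 0 := (Real.log_pos (by norm_num)).ne'
  unfold Real.logb
  field_simp

theorem dim_eq_one {d : ℕ} {α : Fin d → ℝ} (hα : ∀ c, 0 < α c) (hS : S α = univ) (L : Fin d → ℝ) :
    dimH (E α L) = 1 := by
  apply le_antisymm (dimH_le_one _)
  have h1 : Tendsto (fun k : ℕ => ENNReal.ofReal ((2 * (k:ℝ) - Real.logb 2 (2 * k)) / (2 * k + 1)))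
      atTop (𝓝 (ENNReal.ofReal 1)) := ENNReal.tendsto_ofReal lim_lower
  rw [ENNReal.ofReal_one] at h1
  apply le_of_tendsto h1
  filter_upwards [eventually_gt_atTop 0] with k hk
  refine (ENNReal.ofReal_le_ofReal (sx_lower hk)).trans (dim_lower hα hS L ?_)
  have : 2 * 1 ≤ C k := by
    have h2 := Nat.two_dvd_centralBinom_of_one_le hk
    have h3 : 0 < Nat.centralBinom k := Nat.centralBinom_pos k
    have h4 : C k = Nat.centralBinom k := rfl
    rw [h4]
    exact Nat.le_of_dvd h3 h2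
  omega

end Pool.Agent.X86.SG
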