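import Mathlib

/-! The space of sign sequences with its metric -/

set_option autoImplicit false

open Set Filter Topology MeasureTheory
open scoped ENNReal NNReal

namespace Pool.Agent.X86.SG

/-- The space `Ω = {-1,1}^ℕ` of sign sequences; the entry with index `i : ℕ` (`i = 0, 1, …`) is the
sign `ε_{i+1}`. -/
def Omega : Type := ℕ → ℤˣ

/-- the first index where two sequences differ (`0` if they are equal) -/
noncomputable def fd (x y : Omega) : ℕ := PiNat.firstDiff (E := fun _ => ℤˣ) x y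

open Classical in
/-- The metric `ρ(ε, η) = 2^{- min {n ≥ 1 : ε_n ≠ η_n}}`. -/
noncomputable instance : MetricSpace Omega where
  dist x y := if x = y then 0 else (1 / 2 : ℝ) ^ (fd x y + 1)
  dist_self x := by simp
  dist_comm x y := by
    simp only [eq_comm (a := x), fd, PiNat.firstDiff_comm (E := fun _ => ℤˣ) x y]
  dist_triangle x y z := by
    change (if x = z then (0:ℝ) else _) ≤ (if x = y then 0 else _) + (if y = z then 0 else _)
    by_cases hxz : x = z
    · rw [if_pos hxz]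
      positivity
    rw [if_neg hxz]
    by_cases hxy : x = y
    · subst hxy; rw [if_pos rfl, if_neg hxz]; simp
    by_cases hyz : y = z
    · subst hyz; rw [if_pos rfl, if_neg hxy]; simp
    rw [if_neg hxy, if_neg hyz]
    have h := PiNat.min_firstDiff_le (E := fun _ => ℤˣ) x y z hxz
    rcases min_le_iff.mp h with h1 | h1
    · have : (1 / 2 : ℝ) ^ (fd x z + 1) ≤ (1 / 2) ^ (fd x y + 1) :=
        pow_le_pow_of_le_one (by norm_num) (by norm_num) (Nat.succ_le_succ h1)
      have h2 : (0:ℝ) ≤ (1 / 2) ^ (fd y z + 1) := by positivity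
      linarith
    · have : (1 / 2 : ℝ) ^ (fd x z + 1) ≤ (1 / 2) ^ (fd y z + 1) :=
        pow_le_pow_of_le_one (by norm_num) (by norm_num) (Nat.succ_le_succ h1)
      have h2 : (0:ℝ) ≤ (1 / 2) ^ (fd x y + 1) := by positivity
      linarith
  eq_of_dist_eq_zero {x y} h := by
    by_contra hne
    change (if x = y then (0:ℝ) else _) = 0 at h
    rw [if_neg hne] at h
    have : (0:ℝ) < (1 / 2) ^ (fd x y + 1) := by positivity
    linarith

lemma dist_eq {x y : Omega} (h : x ≠ y) : dist x y = (1 / 2 : ℝ) ^ (fd x y + 1) := by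
  classical
  change (if x = y then (0:ℝ) else _) = _
  rw [if_neg h]

lemma eq_of_lt_fd {x y : Omega} {n : ℕ} (hn : n < fd x y) : x n = y n :=
  PiNat.apply_eq_of_lt_firstDiff (E := fun _ => ℤˣ) hn

lemma ne_fd {x y : Omega} (h : x ≠ y) : x (fd x y) ≠ y (fd x y) :=
  PiNat.apply_firstDiff_ne (E := fun _ => ℤˣ) h

lemma dist_le_of_agree {x y : Omega} {n : ℕ} (h : ∀ i < n, x i = y i) :
    dist x y ≤ (1 / 2 : ℝ) ^ (n + 1) := by
  rcases eq_or_ne x y with rfl | hne
  · rw [dist_self]; positivity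
  rw [dist_eq hne]
  apply pow_le_pow_of_le_one (by norm_num) (by norm_num)
  by_contra hcon
  exact ne_fd hne (h _ (by omega))

/-- cylinders -/
def cyl (n : ℕ) (c : Fin n → ℤˣ) : Set Omega := {x : Omega | ∀ i : Fin n, x i = c i}

lemma cyl_diam (n : ℕ) (c : Fin n → ℤˣ) :
    Metric.ediam (cyl n c) ≤ ENNReal.ofReal ((1 / 2) ^ (n + 1)) := by
  apply Metric.ediam_le
  intro x hx y hy
  rw [edist_dist]
  apply ENNReal.ofReal_le_ofReal
  apply dist_le_of_agree
  intro i hi
  have h1 : x i = c ⟨i, hi⟩ := hx ⟨i, hi⟩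
  have h2 : y i = c ⟨i, hi⟩ := hy ⟨i, hi⟩
  rw [h1, h2]

lemma sum_cyl (n : ℕ) : ∑ c : Fin n → ℤˣ, Metric.ediam (cyl n c) ^ (1:ℝ) ≤ 1 := by
  calc ∑ c : Fin n → ℤˣ, Metric.ediam (cyl n c) ^ (1:ℝ)
      ≤ ∑ c : Fin n → ℤˣ, ENNReal.ofReal ((1 / 2) ^ (n + 1)) := by
        apply Finset.sum_le_sum
        intro c _
        rw [ENNReal.rpow_one]
        exact cyl_diam n c
    _ = ENNReal.ofReal (2 ^ n * (1 / 2) ^ (n + 1)) := by
        rw [Finset.sum_const, nsmul_eq_mul, Finset.card_univ, Fintype.card_fun,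
          Fintype.card_fin, Fintype.card_units_int, ENNReal.ofReal_mul (by positivity)]
        congr 1
        rw [← ENNReal.ofReal_natCast]; push_cast; rfl
    _ ≤ ENNReal.ofReal 1 := by
        apply ENNReal.ofReal_le_ofReal
        rw [pow_succ, ← mul_assoc, ← mul_pow]; norm_num
    _ = 1 := ENNReal.ofReal_one

/-- Every subset of `Ω` has Hausdorff dimension at most `1`. -/
theorem dimH_le_one (s : Set Omega) : dimH s ≤ 1 := by
  borelize Omega
  have hr : Tendsto (fun n : ℕ => ENNReal.ofReal ((1 / 2) ^ (n + 1))) atTop (𝓝 0) := by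
    rw [← ENNReal.ofReal_zero]
    apply ENNReal.tendsto_ofReal
    exact (tendsto_pow_atTop_nhds_zero_of_lt_one (by norm_num) (by norm_num)).comp
      (tendsto_add_atTop_nat 1)
  have ht : ∀ᶠ n : ℕ in atTop, ∀ c : Fin n → ℤˣ, Metric.ediam (cyl n c) ≤
      ENNReal.ofReal ((1 / 2) ^ (n + 1)) := Eventually.of_forall fun n c => cyl_diam n c
  have hst : ∀ᶠ n : ℕ in atTop, s ⊆ ⋃ c : Fin n → ℤˣ, cyl n c := by
    refine Eventually.of_forall fun n x _ => ?_
    rw [mem_iUnion]
    exact ⟨fun i => x i, fun i => rfl⟩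
  have key := Measure.hausdorffMeasure_le_liminf_sum (X := Omega) (β := ℕ)
    (ι := fun n => Fin n → ℤˣ) 1 s (l := atTop)
    (fun n : ℕ => ENNReal.ofReal ((1 / 2) ^ (n + 1))) hr cyl ht hst
  have h2 : μH[1] s ≤ 1 := by
    refine key.trans ?_
    refine (liminf_le_liminf (Eventually.of_forall sum_cyl)).trans ?_
    simp
  have h4 : μH[(1 : ℝ≥0)] s ≠ ∞ := by
    rw [NNReal.coe_one]
    exact (lt_of_le_of_lt h2 ENNReal.one_lt_top).ne
  simpa using dimH_le_of_hausdorffMeasure_ne_top h4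

end Pool.Agent.X86.SG
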